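import Pool.Agent.W8.LS.Stm

/-!
Project LS (subtask LS-PtEq): equality of points of the quotient.
-/

namespace Pool.Agent.W55.LS

open Pool.Agent.W8.LS

theorem PtEq_proof : PtEq := by
  intro hE hS P Q d d'
  have hR : Equivalence R := by
    refine ⟨fun x => ⟨hE.refl _, fun _ => rfl⟩, ?_, ?_⟩
    · intro x y h
      exact ⟨hE.symm h.1, fun hs => (h.2 ((hS _ _ h.1).mpr hs)).symm⟩
    · intro x y z h1 h2
      exact ⟨hE.trans h1.1 h2.1, fun hs => (h1.2 hs).trans (h2.2 ((hS _ _ h1.1).mp hs))⟩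
  constructor
  · intro h
    have h1 : Relation.EqvGen R (P, d) (Q, d') := Quot.eqvGen_exact h
    have h2 : R (P, d) (Q, d') := hR.eqvGen_iff.mp h1
    exact h2
  · intro h
    exact Quot.sound (show R (P, d) (Q, d') from h)

end Pool.Agent.W55.LS
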